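import Mathlib

set_option autoImplicit false

/-! LLV modules: finite-dimensional representations of the orthogonal Lie algebra of the extended
space `W = H^2 + ℂ e + ℂ f` with their Hodge bigrading. -/

namespace Pool.Agent.H21.LLV

section forms

variable {W : Type} [AddCommGroup W] [Module ℂ W]

/-- The bilinear form `B` is symmetric and nondegenerate. -/
def IsNondeg (B : LinearMap.BilinForm ℂ W) : Prop :=
  (∀ x y, B x y = B y x) ∧ ∀ x, (∀ y, B x y = 0) → x = 0

/-- `x, y` is a hyperbolic pair. -/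
def IsHyp (B : LinearMap.BilinForm ℂ W) (x y : W) : Prop :=
  B x x = 0 ∧ B x y = 1 ∧ B y y = 0

/-- `x` and `y` are orthogonal. -/
def IsPerp (B : LinearMap.BilinForm ℂ W) (x y : W) : Prop := B x y = 0

/-- `X` belongs to the orthogonal Lie algebra `so(W, B)`. -/
def IsSkew (B : LinearMap.BilinForm ℂ W) (X : Module.End ℂ W) : Prop :=
  ∀ x y, B (X x) y = -B x (X y)

/-- The endomorphism `x ∧ y : z ↦ B(y, z) x - B(x, z) y`. -/
def wedge (B : LinearMap.BilinForm ℂ W) (x y : W) : Module.End ℂ W :=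
  (B y).smulRight x - (B x).smulRight y

theorem wedge_apply (B : LinearMap.BilinForm ℂ W) (x y z : W) :
    wedge B x y z = B y z • x - B x z • y := rfl

theorem wedge_skew {B : LinearMap.BilinForm ℂ W} (hB : ∀ x y, B x y = B y x) (x y : W) :
    IsSkew B (wedge B x y) := by
  intro z w
  rw [wedge_apply, wedge_apply]
  simp only [map_sub, map_smul, LinearMap.sub_apply, LinearMap.smul_apply, smul_eq_mul]
  rw [hB z x, hB z y]
  ring

/-- The commutator of two endomorphisms. -/
def comm (X Y : Module.End ℂ W) : Module.End ℂ W := X * Y - Y * X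

variable {H : Type} [AddCommGroup H] [Module ℂ H]

/-- A linear map `act` on endomorphisms of `W` whose restriction to the skew ones is a
representation of the Lie algebra `so(W, B)` on `H`. -/
def IsRep (B : LinearMap.BilinForm ℂ W) (act : Module.End ℂ W →ₗ[ℂ] Module.End ℂ H) : Prop :=
  ∀ X Y, IsSkew B X → IsSkew B Y → act (comm X Y) = comm (act X) (act Y)

end forms

/-- A representation `H` of the orthogonal Lie algebra of a nondegenerate quadratic space
`(W, B)` with two orthogonal hyperbolic pairs `e, f` and `s, t`. -/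
structure LLVData (W H : Type) [AddCommGroup W] [Module ℂ W] [AddCommGroup H] [Module ℂ H] where
  B : LinearMap.BilinForm ℂ W
  nondeg : IsNondeg B
  act : Module.End ℂ W →ₗ[ℂ] Module.End ℂ H
  rep : IsRep B act
  e : W
  f : W
  s : W
  t : W
  hef : IsHyp B e f
  hst : IsHyp B s t
  hes : IsPerp B e s
  het : IsPerp B e t
  hfs : IsPerp B f s
  hft : IsPerp B f t

namespace LLVData

variable {W H : Type} [AddCommGroup W] [Module ℂ W] [AddCommGroup H] [Module ℂ H]
  (D : LLVData W H)

/-- The degree operator: the action of `2 (e ∧ f)`. -/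
def deg : Module.End ℂ H := D.act ((2 : ℂ) • wedge D.B D.e D.f)

/-- The Hodge operator: the action of `2 (s ∧ t)`. -/
def weil : Module.End ℂ H := D.act ((2 : ℂ) • wedge D.B D.s D.t)

/-- `H^{p,r}`: the degree operator is `p + r - 2n` and the Hodge operator is `p - r`. -/
def hodge (n : ℕ) (p r : ℤ) : Submodule ℂ H :=
  D.deg.eigenspace ((p + r - 2 * n : ℤ) : ℂ) ⊓ D.weil.eigenspace ((p - r : ℤ) : ℂ)

/-- `H` is the sum of the `H^{p,r}` with `0 ≤ p, r ≤ 2n`. -/
def IsGraded (n : ℕ) : Prop :=
  ⨆ p ∈ Finset.range (2 * n + 1), ⨆ r ∈ Finset.range (2 * n + 1),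
    D.hodge n (p : ℤ) (r : ℤ) = ⊤

/-- The Hodge number `h^{p,r}`. -/
noncomputable def hNum (n p r : ℕ) : ℤ := Module.finrank ℂ (D.hodge n (p : ℤ) (r : ℤ))

/-- `a_i = (-1)^i ∑_r (-1)^r h^{i,r}`. -/
noncomputable def a (n i : ℕ) : ℤ :=
  (-1) ^ i * ∑ r ∈ Finset.range (2 * n + 1), (-1) ^ r * D.hNum n i r

/-- `E_i = ∑ h^{i,r}` over the `r` with `i + r` even. -/
noncomputable def evenCol (n i : ℕ) : ℤ :=
  ∑ r ∈ (Finset.range (2 * n + 1)).filter (fun r => Even (i + r)), D.hNum n i r

/-- `O_i = ∑ h^{i,r}` over the `r` with `i + r` odd. -/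
noncomputable def oddCol (n i : ℕ) : ℤ :=
  ∑ r ∈ (Finset.range (2 * n + 1)).filter (fun r => Odd (i + r)), D.hNum n i r

theorem a_eq (n i : ℕ) : D.a n i = D.evenCol n i - D.oddCol n i := by
  unfold a evenCol oddCol
  rw [Finset.mul_sum, Finset.sum_filter, Finset.sum_filter, ← Finset.sum_sub_distrib]
  refine Finset.sum_congr rfl (fun r _ => ?_)
  rw [← mul_assoc, ← pow_add]
  rcases Nat.even_or_odd (i + r) with h | h
  · rw [if_pos h, if_neg (Nat.not_odd_iff_even.2 h), h.neg_one_pow]
    ring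
  · rw [if_neg (Nat.not_even_iff_odd.2 h), if_pos h, h.neg_one_pow]
    ring

end LLVData

end Pool.Agent.H21.LLV
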