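import Pool.Agent.H21.LLV.Defs

set_option autoImplicit false

/-! The column sums of a fixed parity increase. -/

namespace Pool.Agent.H21.LLV

/-- Raising is injective on the negative weight spaces of an `sl_2`-triple. -/
theorem sl2_inj {V : Type} [AddCommGroup V] [Module ℂ V] [FiniteDimensional ℂ V]
    (h e f : Module.End ℂ V) (hf : h * f - f * h = -((2 : ℂ) • f)) (hef : e * f - f * e = h)
    (m : ℤ) (hm : m < 0) (x : V) (hx : h x = (m : ℂ) • x) (hex : e x = 0) : x = 0 := by
  by_contra hx0
  have hf' : ∀ y, h (f y) = f (h y) - (2 : ℂ) • f y := by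
    intro y
    have := congrArg (fun g : Module.End ℂ V => g y) hf
    simp only [LinearMap.sub_apply, Module.End.mul_apply, LinearMap.neg_apply,
      LinearMap.smul_apply] at this
    rw [sub_eq_iff_eq_add] at this
    rw [this]
    abel
  have hef' : ∀ y, e (f y) = f (e y) + h y := by
    intro y
    have := congrArg (fun g : Module.End ℂ V => g y) hef
    simp only [LinearMap.sub_apply, Module.End.mul_apply] at this
    rw [sub_eq_iff_eq_add] at this
    rw [this]
    abel
  have h1 : ∀ j : ℕ, h ((f ^ j) x) = ((m : ℂ) - 2 * j) • (f ^ j) x := by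
    intro j
    induction j with
    | zero => simpa using hx
    | succ j ih =>
      rw [pow_succ', Module.End.mul_apply, hf', ih, map_smul, ← sub_smul]
      congr 1
      push_cast
      ring
  have h2 : ∀ j : ℕ, e ((f ^ (j + 1)) x) = (((j : ℂ) + 1) * ((m : ℂ) - j)) • (f ^ j) x := by
    intro j
    induction j with
    | zero =>
      rw [pow_succ', Module.End.mul_apply, hef', h1]
      simp [hex]
    | succ j ih =>
      rw [pow_succ', Module.End.mul_apply, hef', ih, h1, map_smul,
        show f ((f ^ j) x) = (f ^ (j + 1)) x by rw [pow_succ', Module.End.mul_apply], ← add_smul]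
      congr 1
      push_cast
      ring
  have h3 : ∀ j : ℕ, (f ^ j) x ≠ 0 := by
    intro j
    induction j with
    | zero => simpa using hx0
    | succ j ih =>
      intro h0
      have h4 := h2 j
      rw [h0, map_zero] at h4
      have h5 := smul_eq_zero.1 h4.symm
      rcases h5 with h5 | h5
      · rcases mul_eq_zero.1 h5 with h6 | h6
        · have h7 : ((j + 1 : ℕ) : ℂ) = 0 := by push_cast; exact h6
          exact absurd (Nat.cast_eq_zero.1 h7) (Nat.succ_ne_zero j)
        · have h7 : ((m - j : ℤ) : ℂ) = 0 := by push_cast; exact h6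
          have h8 := Int.cast_eq_zero.1 h7
          omega
      · exact ih h5
  have h4 : ∀ j : ℕ, h.HasEigenvalue ((m : ℂ) - 2 * j) := by
    intro j
    exact Module.End.hasEigenvalue_of_hasEigenvector
      (Module.End.hasEigenvector_iff.2 ⟨Module.End.mem_eigenspace_iff.2 (h1 j), h3 j⟩)
  have hinj : Function.Injective (fun j : ℕ => (m : ℂ) - 2 * j) := by
    intro a b hab
    have h5 : (a : ℂ) = b := by
      have h6 : (m : ℂ) - 2 * a = m - 2 * b := hab
      linear_combination (-1 / 2 : ℂ) * h6
    exact_mod_cast h5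
  have h5 := Set.infinite_range_of_injective hinj
  exact h5 ((h.finite_hasEigenvalue).subset (by rintro _ ⟨j, rfl⟩; exact h4 j))

section wedge

variable {W : Type} [AddCommGroup W] [Module ℂ W] (B : LinearMap.BilinForm ℂ W)

theorem wedge_self (x : W) : wedge B x x = 0 := by
  rw [wedge, sub_self]

theorem wedge_swap (x y : W) : wedge B x y = -wedge B y x := by
  rw [wedge, wedge, neg_sub]

theorem comm_wedge (hB : ∀ x y, B x y = B y x) (a b c d : W) :
    comm (wedge B a b) (wedge B c d) =
      B b c • wedge B a d - B a c • wedge B b d + B b d • wedge B c a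
        - B a d • wedge B c b := by
  apply LinearMap.ext
  intro z
  simp only [comm, LinearMap.sub_apply, LinearMap.add_apply, LinearMap.smul_apply,
    Module.End.mul_apply, wedge_apply, map_sub, map_smul]
  rw [hB d a, hB c a, hB d b, hB c b]
  module

theorem comm_smul_left (c : ℂ) (X Y : Module.End ℂ W) : comm (c • X) Y = c • comm X Y := by
  rw [comm, comm, smul_mul_assoc, mul_smul_comm, smul_sub]

theorem comm_smul_right (c : ℂ) (X Y : Module.End ℂ W) : comm X (c • Y) = c • comm X Y := by
  rw [comm, comm, smul_mul_assoc, mul_smul_comm, smul_sub]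

theorem skew_smul {B : LinearMap.BilinForm ℂ W} (c : ℂ) {X : Module.End ℂ W}
    (hX : IsSkew B X) : IsSkew B (c • X) := by
  intro x y
  have h := hX x y
  simp only [LinearMap.smul_apply, map_smul, smul_eq_mul]
  rw [h]
  ring

end wedge

/-- A unit vector orthogonal to a subspace with an orthogonal projection. -/
theorem exists_unit {W : Type} [AddCommGroup W] [Module ℂ W] (q : LinearMap.BilinForm ℂ W)
    (symm : ∀ x y, q x y = q y x) (nondeg : ∀ x, (∀ y, q x y = 0) → x = 0)
    (S : Submodule ℂ W) (pr : W → W) (h1 : ∀ w, w - pr w ∈ S)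
    (h2 : ∀ w, ∀ s ∈ S, q (pr w) s = 0) (hS : S ≠ ⊤) :
    ∃ z, (∀ s ∈ S, q z s = 0) ∧ q z z = 1 := by
  by_contra hcon
  have h0 : ∀ z, (∀ s ∈ S, q z s = 0) → q z z = 0 := by
    intro z hz
    by_contra hne
    obtain ⟨c, hc⟩ := IsAlgClosed.exists_pow_nat_eq (q z z) (n := 2) (by norm_num)
    have hc0 : c ≠ 0 := by
      rintro rfl
      exact hne (by rw [← hc]; norm_num)
    apply hcon
    refine ⟨c⁻¹ • z, ?_, ?_⟩
    · intro s hs
      rw [map_smul, LinearMap.smul_apply, hz s hs, smul_zero]
    · simp only [map_smul, LinearMap.smul_apply, smul_eq_mul]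
      rw [← hc]
      field_simp
  apply hS
  rw [eq_top_iff]
  intro w _
  have h3 : pr w = 0 := by
    apply nondeg
    intro y
    have h4 : q (pr w) (pr y) = 0 := by
      have h5 := h0 (pr w + pr y) (by
        intro s hs
        rw [map_add, LinearMap.add_apply, h2 w s hs, h2 y s hs, add_zero])
      have h6 := h0 (pr w) (h2 w)
      have h7 := h0 (pr y) (h2 y)
      simp only [map_add, LinearMap.add_apply] at h5
      rw [h6, h7, symm (pr y) (pr w)] at h5
      linear_combination (1 / 2 : ℂ) * h5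
    have h8 := h2 w _ (h1 y)
    rw [map_sub, h4, sub_zero] at h8
    exact h8
  have h9 := h1 w
  rwa [h3, sub_zero] at h9

/-- A unit vector orthogonal to two orthogonal hyperbolic pairs and to a further vector `u`
which is either zero or a unit vector orthogonal to them, in dimension at least 6. -/
theorem exists_perp {W : Type} [AddCommGroup W] [Module ℂ W] (q : LinearMap.BilinForm ℂ W)
    (symm : ∀ x y, q x y = q y x) (nondeg : ∀ x, (∀ y, q x y = 0) → x = 0)
    (h6 : 6 ≤ Module.finrank ℂ W) (e f s t u : W) (ee : q e e = 0) (ef : q e f = 1)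
    (ff : q f f = 0) (es : q e s = 0) (et : q e t = 0) (fs : q f s = 0) (ft : q f t = 0)
    (ss : q s s = 0) (st : q s t = 1) (tt : q t t = 0) (eu : q e u = 0) (fu : q f u = 0)
    (su : q s u = 0) (tu : q t u = 0) (uu : u = 0 ∨ q u u = 1) :
    ∃ v, q e v = 0 ∧ q f v = 0 ∧ q s v = 0 ∧ q t v = 0 ∧ q u v = 0 ∧ q v v = 1 := by
  classical
  have : FiniteDimensional ℂ W := FiniteDimensional.of_finrank_pos (by omega)
  have hne : ∀ F : Finset W, F.card ≤ 5 → Submodule.span ℂ (F : Set W) ≠ ⊤ := by
    intro F hF htop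
    have h1 := finrank_span_finset_le_card (R := ℂ) F
    unfold Set.finrank at h1
    rw [htop, finrank_top] at h1
    omega
  obtain ⟨v, hv, hvv⟩ := exists_unit q symm nondeg
    (Submodule.span ℂ (({e, f, s, t, u} : Finset W) : Set W))
    (fun w => w - (q w f • e + q w e • f + q w t • s + q w s • t + q w u • u)) (by
      intro w
      rw [sub_sub_cancel]
      exact Submodule.add_mem _ (Submodule.add_mem _ (Submodule.add_mem _ (Submodule.add_mem _
        (Submodule.smul_mem _ _ (Submodule.subset_span (by simp)))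
        (Submodule.smul_mem _ _ (Submodule.subset_span (by simp))))
        (Submodule.smul_mem _ _ (Submodule.subset_span (by simp))))
        (Submodule.smul_mem _ _ (Submodule.subset_span (by simp))))
        (Submodule.smul_mem _ _ (Submodule.subset_span (by simp))))
    (by
      intro w r hr
      have hle : Submodule.span ℂ (({e, f, s, t, u} : Finset W) : Set W) ≤
          LinearMap.ker (q (w - (q w f • e + q w e • f + q w t • s + q w s • t
            + q w u • u))) := by
        rw [Submodule.span_le]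
        intro y hy
        simp only [Finset.coe_insert, Finset.coe_singleton, Set.mem_insert_iff,
          Set.mem_singleton_iff] at hy
        rw [SetLike.mem_coe, LinearMap.mem_ker]
        simp only [map_sub, map_add, map_smul, LinearMap.sub_apply, LinearMap.add_apply,
            LinearMap.smul_apply, smul_eq_mul]
        rcases hy with rfl | rfl | rfl | rfl | rfl
        · rw [ee, symm f y, ef, symm s y, es, symm t y, et, symm u y, eu]
          ring
        · rw [ff, ef, symm s y, fs, symm t y, ft, symm u y, fu]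
          ring
        · rw [ss, es, fs, symm t y, st, symm u y, su]
          ring
        · rw [tt, et, ft, st, symm u y, tu]
          ring
        · rw [eu, fu, su, tu]
          rcases uu with uu | uu
          · rw [uu]
            simp
          · rw [uu]
            ring
      exact LinearMap.mem_ker.1 (hle hr))
    (hne _ Finset.card_le_five)
  refine ⟨v, ?_, ?_, ?_, ?_, ?_, hvv⟩
  · rw [symm]; exact hv e (Submodule.subset_span (by simp))
  · rw [symm]; exact hv f (Submodule.subset_span (by simp))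
  · rw [symm]; exact hv s (Submodule.subset_span (by simp))
  · rw [symm]; exact hv t (Submodule.subset_span (by simp))
  · rw [symm]; exact hv u (Submodule.subset_span (by simp))

/-- The two commuting `sl_2`-triples of a hexad of vectors. -/
theorem triples {W : Type} [AddCommGroup W] [Module ℂ W] (B : LinearMap.BilinForm ℂ W)
    (hB : ∀ x y, B x y = B y x) (e f s t u v : W)
    (ee : B e e = 0) (ef : B e f = 1) (ff : B f f = 0) (es : B e s = 0) (et : B e t = 0)
    (fs : B f s = 0) (ft : B f t = 0) (ss : B s s = 0) (st : B s t = 1) (tt : B t t = 0)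
    (eu : B e u = 0) (fu : B f u = 0) (su : B s u = 0) (tu : B t u = 0) (uu : B u u = 1)
    (ev : B e v = 0) (fv : B f v = 0) (sv : B s v = 0) (tv : B t v = 0) (uv : B u v = 0)
    (vv : B v v = 1) :
    ∃ E1 E2 F1 F2 : Module.End ℂ W,
      (IsSkew B E1 ∧ IsSkew B E2 ∧ IsSkew B F1 ∧ IsSkew B F2) ∧
      comm ((2 : ℂ) • wedge B e f) E1 = (2 : ℂ) • E1 ∧ comm ((2 : ℂ) • wedge B s t) E1 = 0 ∧
      comm ((2 : ℂ) • wedge B e f) E2 = 0 ∧ comm ((2 : ℂ) • wedge B s t) E2 = (2 : ℂ) • E2 ∧
      comm ((2 : ℂ) • wedge B e f) F1 = -((2 : ℂ) • F1) ∧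
      comm ((2 : ℂ) • wedge B s t) F1 = 0 ∧
      comm ((2 : ℂ) • wedge B e f) F2 = 0 ∧
      comm ((2 : ℂ) • wedge B s t) F2 = -((2 : ℂ) • F2) ∧
      comm E1 F1 = (2 : ℂ) • wedge B e f ∧ comm E1 F2 = 0 ∧
      comm E2 F1 = 0 ∧ comm E2 F2 = (2 : ℂ) • wedge B s t := by
  have fe : B f e = 1 := by rw [hB]; exact ef
  have se : B s e = 0 := by rw [hB]; exact es
  have te : B t e = 0 := by rw [hB]; exact et
  have sf : B s f = 0 := by rw [hB]; exact fs
  have tf : B t f = 0 := by rw [hB]; exact ft
  have ts : B t s = 1 := by rw [hB]; exact st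
  have ue : B u e = 0 := by rw [hB]; exact eu
  have uf : B u f = 0 := by rw [hB]; exact fu
  have us : B u s = 0 := by rw [hB]; exact su
  have ut : B u t = 0 := by rw [hB]; exact tu
  have ve : B v e = 0 := by rw [hB]; exact ev
  have vf : B v f = 0 := by rw [hB]; exact fv
  have vs : B v s = 0 := by rw [hB]; exact sv
  have vt : B v t = 0 := by rw [hB]; exact tv
  have vu : B v u = 0 := by rw [hB]; exact uv
  refine ⟨wedge B e u, wedge B s v, (-2 : ℂ) • wedge B f u, (-2 : ℂ) • wedge B t v,
    ⟨wedge_skew hB _ _, wedge_skew hB _ _, skew_smul _ (wedge_skew hB _ _),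
      skew_smul _ (wedge_skew hB _ _)⟩, ?_, ?_, ?_, ?_, ?_, ?_, ?_, ?_, ?_, ?_, ?_, ?_⟩
  · rw [comm_smul_left, comm_wedge B hB, fe, ee, fu, eu]; module
  · rw [comm_smul_left, comm_wedge B hB, te, se, tu, su]; module
  · rw [comm_smul_left, comm_wedge B hB, fs, es, fv, ev]; module
  · rw [comm_smul_left, comm_wedge B hB, ts, ss, tv, sv]; module
  · rw [comm_smul_left, comm_smul_right, comm_wedge B hB, ff, ef, fu, eu]; module
  · rw [comm_smul_left, comm_smul_right, comm_wedge B hB, tf, sf, tu, su]; module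
  · rw [comm_smul_left, comm_smul_right, comm_wedge B hB, ft, et, fv, ev]; module
  · rw [comm_smul_left, comm_smul_right, comm_wedge B hB, tt, st, tv, sv]; module
  · rw [comm_smul_right, comm_wedge B hB, uf, ef, uu, eu, wedge_self, wedge_swap B f e]; module
  · rw [comm_smul_right, comm_wedge B hB, ut, et, uv, ev]; module
  · rw [comm_smul_right, comm_wedge B hB, vf, sf, vu, su]; module
  · rw [comm_smul_right, comm_wedge B hB, vt, st, vv, sv, wedge_self, wedge_swap B t s]; module

/-- The dimension of the sum of an independent family. -/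
theorem finrank_sup_eq {V : Type} [AddCommGroup V] [Module ℂ V] [FiniteDimensional ℂ V]
    {ι : Type} [DecidableEq ι] (f : ι → Submodule ℂ V) (hf : iSupIndep f) (s : Finset ι) :
    Module.finrank ℂ (s.sup f : Submodule ℂ V) = ∑ i ∈ s, Module.finrank ℂ (f i) := by
  induction s using Finset.induction_on with
  | empty => simp
  | insert a s ha ih =>
    rw [Finset.sup_insert, Finset.sum_insert ha, ← ih]
    have h1 := Submodule.finrank_sup_add_finrank_inf_eq (f a) (s.sup f)
    have h2 : Disjoint (f a) (s.sup f) := by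
      refine (hf a).mono_right ?_
      rw [Finset.sup_le_iff]
      intro b hb
      have hba : b ≠ a := by rintro rfl; exact ha hb
      exact le_iSup₂_of_le b hba le_rfl
    rw [disjoint_iff.1 h2, finrank_bot, add_zero] at h1
    exact h1

namespace LLVData

variable {W H : Type} [AddCommGroup W] [Module ℂ W] [AddCommGroup H] [Module ℂ H]
  (D : LLVData W H)

theorem act_comm_apply {X Y : Module.End ℂ W} (hX : IsSkew D.B X) (hY : IsSkew D.B Y) (x : H) :
    D.act X (D.act Y x) = D.act Y (D.act X x) + D.act (comm X Y) x := by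
  rw [D.rep X Y hX hY]
  simp only [comm, LinearMap.sub_apply, Module.End.mul_apply]
  abel

theorem mem_hodge {n : ℕ} {p r : ℤ} {x : H} :
    x ∈ D.hodge n p r ↔ D.deg x = ((p + r - 2 * n : ℤ) : ℂ) • x ∧
      D.weil x = ((p - r : ℤ) : ℂ) • x := by
  unfold hodge
  rw [Submodule.mem_inf, Module.End.mem_eigenspace_iff, Module.End.mem_eigenspace_iff]

/-- no `H^{p,r}` with `r` outside `[0, 2n]` -/
theorem hodge_eq_bot {n : ℕ} (hg : D.IsGraded n) (p r : ℤ) (hr : r < 0 ∨ 2 * n < r) :
    D.hodge n p r = ⊥ := by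
  set G : Module.End ℂ H := D.deg - D.weil with hG
  have h1 : ∀ p r : ℤ, D.hodge n p r ≤ G.eigenspace ((2 * r - 2 * n : ℤ) : ℂ) := by
    intro p r x hx
    obtain ⟨h2, h3⟩ := D.mem_hodge.1 hx
    rw [Module.End.mem_eigenspace_iff, hG, LinearMap.sub_apply, h2, h3, ← sub_smul]
    congr 1
    push_cast
    ring
  have h2 := (Module.End.eigenspaces_iSupIndep G) ((2 * r - 2 * n : ℤ) : ℂ)
  have h3 : (⨆ μ, ⨆ (_ : μ ≠ ((2 * r - 2 * n : ℤ) : ℂ)), G.eigenspace μ) = ⊤ := by
    rw [eq_top_iff, ← hg]
    refine iSup₂_le (fun a _ => iSup₂_le (fun b hb => ?_))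
    refine (h1 a b).trans ?_
    refine le_iSup₂_of_le ((2 * (b : ℤ) - 2 * n : ℤ) : ℂ) ?_ le_rfl
    intro h4
    have h5 := Int.cast_injective h4
    have h6 := Finset.mem_range.1 hb
    omega
  rw [h3, disjoint_top] at h2
  exact le_bot_iff.1 (h2 ▸ h1 p r)

/-- The column of a fixed parity. -/
def col (n : ℕ) (i : ℤ) (s : Finset ℕ) : Submodule ℂ H := s.sup (fun r => D.hodge n i (r : ℤ))

theorem finrank_col [FiniteDimensional ℂ H] (n : ℕ) (i : ℤ) (s : Finset ℕ) :
    Module.finrank ℂ (D.col n i s) = ∑ r ∈ s, Module.finrank ℂ (D.hodge n i (r : ℤ)) := by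
  apply finrank_sup_eq
  have h1 := Module.End.eigenspaces_iSupIndep D.weil
  have h2 : Function.Injective (fun r : ℕ => ((i - r : ℤ) : ℂ)) := by
    intro a b hab
    have := Int.cast_injective hab
    omega
  exact (h1.comp h2).mono (fun r => inf_le_right)

/-- The heart: the sums over the `r` of a fixed parity do not decrease. -/
theorem col_le [FiniteDimensional ℂ H] (h6 : 6 ≤ Module.finrank ℂ W) {n : ℕ}
    (hg : D.IsGraded n) (i : ℕ) (hi : i < n) (P Q : ℕ → Prop) [DecidablePred P] [DecidablePred Q]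
    (hPQ : ∀ r, P r → Q (r + 1)) (hPQ' : ∀ r, P (r + 1) → Q r) :
    ∑ r ∈ (Finset.range (2 * n + 1)).filter P, Module.finrank ℂ (D.hodge n (i : ℤ) (r : ℤ)) ≤
      ∑ r ∈ (Finset.range (2 * n + 1)).filter Q,
        Module.finrank ℂ (D.hodge n ((i + 1 : ℕ) : ℤ) (r : ℤ)) := by
  obtain ⟨hB, hnd⟩ := D.nondeg
  obtain ⟨ee, ef, ff⟩ := D.hef
  obtain ⟨ss, st, tt⟩ := D.hst
  have es : D.B D.e D.s = 0 := D.hes
  have et : D.B D.e D.t = 0 := D.het
  have fs : D.B D.f D.s = 0 := D.hfs
  have ft : D.B D.f D.t = 0 := D.hft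
  obtain ⟨u, eu, fu, su, tu, -, uu⟩ := exists_perp D.B hB hnd h6 D.e D.f D.s D.t 0 ee ef ff es
    et fs ft ss st tt (by simp) (by simp) (by simp) (by simp) (Or.inl rfl)
  obtain ⟨v, ev, fv, sv, tv, uv, vv⟩ := exists_perp D.B hB hnd h6 D.e D.f D.s D.t u ee ef ff es
    et fs ft ss st tt eu fu su tu (Or.inr uu)
  obtain ⟨E1, E2, F1, F2, ⟨sE1, sE2, sF1, sF2⟩, DE1, TE1, DE2, TE2, DF1, TF1, DF2, TF2, EF11,
      EF12, EF21, EF22⟩ :=
    triples D.B hB D.e D.f D.s D.t u v ee ef ff es et fs ft ss st tt eu fu su tu uu ev fv sv tv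
      uv vv
  have sD : IsSkew D.B ((2 : ℂ) • wedge D.B D.e D.f) := skew_smul _ (wedge_skew hB _ _)
  have sT : IsSkew D.B ((2 : ℂ) • wedge D.B D.s D.t) := skew_smul _ (wedge_skew hB _ _)
  set e := D.act E1 + D.act E2 with he
  set f := D.act F1 + D.act F2 with hf
  set h := D.deg + D.weil with hh
  have hdeg : D.deg = D.act ((2 : ℂ) • wedge D.B D.e D.f) := rfl
  have hweil : D.weil = D.act ((2 : ℂ) • wedge D.B D.s D.t) := rfl
  have dE1 : ∀ x, D.deg (D.act E1 x) = D.act E1 (D.deg x) + (2 : ℂ) • D.act E1 x := by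
    intro x
    rw [hdeg, D.act_comm_apply sD sE1, DE1, show D.act ((2 : ℂ) • E1) = (2 : ℂ) • D.act E1 from
      map_smul _ _ _, LinearMap.smul_apply]
  have tE1 : ∀ x, D.weil (D.act E1 x) = D.act E1 (D.weil x) := by
    intro x
    rw [hweil, D.act_comm_apply sT sE1, TE1, map_zero, LinearMap.zero_apply, add_zero]
  have dE2 : ∀ x, D.deg (D.act E2 x) = D.act E2 (D.deg x) := by
    intro x
    rw [hdeg, D.act_comm_apply sD sE2, DE2, map_zero, LinearMap.zero_apply, add_zero]
  have tE2 : ∀ x, D.weil (D.act E2 x) = D.act E2 (D.weil x) + (2 : ℂ) • D.act E2 x := by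
    intro x
    rw [hweil, D.act_comm_apply sT sE2, TE2, show D.act ((2 : ℂ) • E2) = (2 : ℂ) • D.act E2 from
      map_smul _ _ _, LinearMap.smul_apply]
  have hhf : h * f - f * h = -((2 : ℂ) • f) := by
    have h1 := D.rep _ _ sD sF1
    have h2 := D.rep _ _ sD sF2
    have h3 := D.rep _ _ sT sF1
    have h5 := D.rep _ _ sT sF2
    rw [DF1, ← hdeg, map_neg, map_smul, comm] at h1
    rw [DF2, ← hdeg, map_zero, comm] at h2
    rw [TF1, ← hweil, map_zero, comm] at h3
    rw [TF2, ← hweil, map_neg, map_smul, comm] at h5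
    rw [hh, hf, smul_add, neg_add, h1, h5]
    have h6 : D.deg * D.act F2 = D.act F2 * D.deg := (sub_eq_zero.1 h2.symm)
    have h7 : D.weil * D.act F1 = D.act F1 * D.weil := (sub_eq_zero.1 h3.symm)
    rw [add_mul, mul_add, mul_add, add_mul, mul_add, mul_add, h6, h7]
    abel
  have hef : e * f - f * e = h := by
    have h1 := D.rep _ _ sE1 sF1
    have h2 := D.rep _ _ sE1 sF2
    have h3 := D.rep _ _ sE2 sF1
    have h5 := D.rep _ _ sE2 sF2
    rw [EF11, ← hdeg, comm] at h1
    rw [EF12, map_zero, comm] at h2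
    rw [EF21, map_zero, comm] at h3
    rw [EF22, ← hweil, comm] at h5
    have h6 : D.act E1 * D.act F2 = D.act F2 * D.act E1 := (sub_eq_zero.1 h2.symm)
    have h7 : D.act E2 * D.act F1 = D.act F1 * D.act E2 := (sub_eq_zero.1 h3.symm)
    rw [hh, h1, h5, he, hf, add_mul, mul_add, mul_add, add_mul, mul_add, mul_add, h6, h7]
    abel
  set A := D.col n (i : ℤ) ((Finset.range (2 * n + 1)).filter P) with hA
  set C := D.col n ((i + 1 : ℕ) : ℤ) ((Finset.range (2 * n + 1)).filter Q) with hC
  rw [← finrank_col, ← finrank_col, ← hA, ← hC]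
  have hmap : A ≤ C.comap e := by
    rw [hA, col, Finset.sup_le_iff]
    intro r hr x hx
    obtain ⟨hr1, hr2⟩ := Finset.mem_filter.1 hr
    have hr3 := Finset.mem_range.1 hr1
    obtain ⟨hx1, hx2⟩ := D.mem_hodge.1 hx
    rw [Submodule.mem_comap, he, LinearMap.add_apply]
    have hCr : ∀ r' : ℕ, r' < 2 * n + 1 → Q r' →
        D.hodge n ((i + 1 : ℕ) : ℤ) (r' : ℤ) ≤ C := by
      intro r' h1 h2
      exact Finset.le_sup (f := fun r : ℕ => D.hodge n ((i + 1 : ℕ) : ℤ) (r : ℤ))
        (Finset.mem_filter.2 ⟨Finset.mem_range.2 h1, h2⟩)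
    refine Submodule.add_mem _ ?_ ?_
    · have h1 : D.act E1 x ∈ D.hodge n ((i + 1 : ℕ) : ℤ) ((r + 1 : ℕ) : ℤ) := by
        rw [mem_hodge, dE1, tE1, hx1, hx2, map_smul, map_smul, ← add_smul]
        constructor
        · congr 1
          push_cast
          ring
        · congr 1
          push_cast
          ring
      rcases Nat.lt_or_ge (r + 1) (2 * n + 1) with h2 | h2
      · exact hCr (r + 1) h2 (hPQ r hr2) h1
      · rw [D.hodge_eq_bot hg _ _ (Or.inr (by push_cast; omega)), Submodule.mem_bot] at h1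
        rw [h1]
        exact Submodule.zero_mem _
    · have h1 : D.act E2 x ∈ D.hodge n ((i + 1 : ℕ) : ℤ) ((r : ℤ) - 1) := by
        rw [mem_hodge, dE2, tE2, hx1, hx2, map_smul, map_smul, ← add_smul]
        constructor
        · congr 1
          push_cast
          ring
        · congr 1
          push_cast
          ring
      rcases Nat.eq_zero_or_pos r with h2 | h2
      · subst h2
        rw [D.hodge_eq_bot hg _ _ (Or.inl (by norm_num)), Submodule.mem_bot] at h1
        rw [h1]
        exact Submodule.zero_mem _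
      · obtain ⟨r', rfl⟩ := Nat.exists_eq_succ_of_ne_zero h2.ne'
        have h3 : (((r' + 1 : ℕ) : ℤ) - 1) = (r' : ℤ) := by push_cast; ring
        rw [Nat.succ_eq_add_one, h3] at h1
        exact hCr r' (by omega) (hPQ' r' hr2) h1
  have hinj : Function.Injective (e.restrict (fun x hx => hmap hx) : A →ₗ[ℂ] C) := by
    rw [← LinearMap.ker_eq_bot, LinearMap.ker_eq_bot']
    intro x hx
    have h1 : e (x : H) = 0 := congrArg Subtype.val hx
    have h2 : h (x : H) = ((2 * (i : ℤ) - 2 * n : ℤ) : ℂ) • (x : H) := by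
      have h3 : A ≤ h.eigenspace ((2 * (i : ℤ) - 2 * n : ℤ) : ℂ) := by
        rw [hA, col, Finset.sup_le_iff]
        intro r _ y hy
        obtain ⟨hy1, hy2⟩ := D.mem_hodge.1 hy
        rw [Module.End.mem_eigenspace_iff, hh, LinearMap.add_apply, hy1, hy2, ← add_smul]
        congr 1
        push_cast
        ring
      exact Module.End.mem_eigenspace_iff.1 (h3 x.2)
    have h3 := sl2_inj h e f hhf hef _ (by omega) (x : H) h2 h1
    exact Subtype.ext h3
  exact LinearMap.finrank_le_finrank_of_injective hinj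

theorem evenCol_le [FiniteDimensional ℂ H] (h6 : 6 ≤ Module.finrank ℂ W) {n : ℕ}
    (hg : D.IsGraded n) (i : ℕ) (hi : i < n) : D.evenCol n i ≤ D.evenCol n (i + 1) := by
  have h1 := D.col_le h6 hg i hi (fun r => Even (i + r)) (fun r => Even (i + 1 + r))
    (fun r hr => by
      have h2 : i + 1 + (r + 1) = i + r + 2 := by ring
      rw [h2]
      exact hr.add (by decide))
    (fun r hr => by
      have h2 : i + 1 + r = i + (r + 1) := by ring
      rw [h2]
      exact hr)
  unfold evenCol hNum
  exact_mod_cast h1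

theorem oddCol_le [FiniteDimensional ℂ H] (h6 : 6 ≤ Module.finrank ℂ W) {n : ℕ}
    (hg : D.IsGraded n) (i : ℕ) (hi : i < n) : D.oddCol n i ≤ D.oddCol n (i + 1) := by
  have h1 := D.col_le h6 hg i hi (fun r => Odd (i + r)) (fun r => Odd (i + 1 + r))
    (fun r hr => by
      have h2 : i + 1 + (r + 1) = i + r + 2 := by ring
      rw [h2]
      exact hr.add_even (by decide))
    (fun r hr => by
      have h2 : i + 1 + r = i + (r + 1) := by ring
      rw [h2]
      exact hr)
  unfold oddCol hNum
  exact_mod_cast h1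

end LLVData

end Pool.Agent.H21.LLV
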